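import Pool.Agent.helper87.FS.Spec

/-!
Row fs:CST (MP_abccb5_co): one more vertex.
-/

set_option autoImplicit false

namespace Pool.Agent.FS

open Polynomial Matrix Pool.Agent.helper42.NS

/-- an adjacency matrix is bordered by a 0/1 vector -/
theorem CST_bord {t : ℕ} (H : Matrix (Fin (t + 1)) (Fin (t + 1)) ℤ) (hH : IsGr H) :
    bord (trH H) (ind fun j => decide (H 0 j.succ = 1)) = H := by
  obtain ⟨h1, h2, h3⟩ := hH
  have key : ∀ j : Fin t, ind (fun j => decide (H 0 j.succ = 1)) j = H 0 j.succ := by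
    intro j
    unfold ind
    rcases h1 0 j.succ with h | h <;> simp [h]
  ext i j
  refine Fin.cases ?_ (fun i => ?_) i
  · refine Fin.cases ?_ (fun j => ?_) j
    · rw [bord_zero_zero, h2]
    · rw [bord_zero_succ, key]
  · refine Fin.cases ?_ (fun j => ?_) j
    · rw [bord_succ_zero, key, h3]
    · rw [bord_succ_succ]
      rfl

theorem CST_cz {t k : ℕ} (B : Fin k → Fin (t + 1) → Bool) :
    cz (fun i => B i 0) (trB B) = B := by
  funext i j
  refine Fin.cases ?_ (fun j => ?_) j <;> rfl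

theorem CST_trH {t : ℕ} (H : Matrix (Fin (t + 1)) (Fin (t + 1)) ℤ) (hH : IsGr H) : IsGr (trH H) :=
  ⟨fun i j => hH.1 i.succ j.succ, fun i => hH.2.1 i.succ, fun i j => hH.2.2 i.succ j.succ⟩

/-- fibrewise counting -/
theorem CST_fib {α β γ : Type*} [Finite β] (S : Set α) (hS : S.Finite) (c d : ℕ) (F : α → β → γ) (T : Set γ)
    (R : α → β → Prop)
    (hT : ∀ x ∈ T, ∃ a ∈ S, ∃ b, R a b ∧ F a b = x)
    (hR : ∀ a ∈ S, Set.ncard {b | R a b} * c ≤ d) :
    T.ncard * c ≤ S.ncard * d := by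
  classical
  have hsub : T ⊆ ⋃ a ∈ hS.toFinset, (F a) '' {b | R a b} := by
    intro x hx
    obtain ⟨a, ha, b, hb, rfl⟩ := hT x hx
    simp only [Set.mem_iUnion]
    exact ⟨a, hS.mem_toFinset.2 ha, b, hb, rfl⟩
  have hfin : (⋃ a ∈ hS.toFinset, (F a) '' {b | R a b}).Finite := by
    refine Set.Finite.biUnion (Finset.finite_toSet _) fun a _ => ?_
    exact (Set.toFinite _).image _
  have h1 : T.ncard ≤ ∑ a ∈ hS.toFinset, Set.ncard {b | R a b} := by
    refine (Set.ncard_le_ncard hsub hfin).trans ?_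
    refine (Finset.set_ncard_biUnion_le _ _).trans ?_
    exact Finset.sum_le_sum fun a _ => Set.ncard_image_le (Set.toFinite _)
  calc T.ncard * c ≤ (∑ a ∈ hS.toFinset, Set.ncard {b | R a b}) * c := Nat.mul_le_mul_right _ h1
    _ = ∑ a ∈ hS.toFinset, Set.ncard {b | R a b} * c := Finset.sum_mul _ _ _
    _ ≤ ∑ a ∈ hS.toFinset, d := Finset.sum_le_sum fun a ha => hR a (hS.mem_toFinset.1 ha)
    _ = S.ncard * d := by
      rw [Finset.sum_const, smul_eq_mul, Set.ncard_eq_toFinset_card S hS]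

theorem CST (h1 : CXF_stmt) : CST_stmt := by
  intro t k c d Ψ Φ h
  have hfin : {HB : Matrix (Fin t) (Fin t) ℤ × (Fin k → Fin t → Bool) | IsGr HB.1 ∧ Ψ HB.1 HB.2}.Finite :=
    (h1 t k).1.subset fun HB hHB => hHB.1
  refine CST_fib (β := (Fin t → Bool) × (Fin k → Bool)) _ hfin c d
    (fun HB bz => (bord HB.1 (ind bz.1), cz bz.2 HB.2)) _
    (fun HB bz => Φ (bord HB.1 (ind bz.1)) (cz bz.2 HB.2)) ?_ ?_
  · rintro ⟨H, B⟩ ⟨hG, hΨ, hΦ⟩
    refine ⟨(trH H, trB B), ⟨CST_trH H hG, hΨ⟩, (fun j => decide (H 0 j.succ = 1), fun i => B i 0), ?_, ?_⟩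
    · show Φ (bord (trH H) (ind fun j => decide (H 0 j.succ = 1))) (cz (fun i => B i 0) (trB B))
      rw [CST_bord H hG, CST_cz]
      exact hΦ
    · show (bord (trH H) (ind fun j => decide (H 0 j.succ = 1)), cz (fun i => B i 0) (trB B)) = (H, B)
      rw [CST_bord H hG, CST_cz]
  · rintro ⟨H, B⟩ ⟨hG, hΨ⟩
    exact h H B hG hΨ

end Pool.Agent.FS
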