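import Pool.Agent.helper78.FS.Spec

/-! # MP_55808c_co, project FS, row INZ (helper16) -/

namespace Pool.Agent.helper78.FS

open Finset Real
open Classical

noncomputable section

/-- a symmetric 1-cochain as a function of the set of end points. -/
def INZ_F {V : Type} [DecidableEq V] (χ : V → V → ZMod 2) (e : Finset V) : ZMod 2 :=
  if h : ∃ p : V × V, e = {p.1, p.2} then χ h.choose.1 h.choose.2 else 0

theorem INZ_Fpair {V : Type} [DecidableEq V] (χ : V → V → ZMod 2) (hχ : ∀ x y, χ y x = χ x y) (a b : V) : INZ_F χ {a, b} = χ a b := by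
  have h : ∃ p : V × V, ({a, b} : Finset V) = {p.1, p.2} := ⟨(a, b), rfl⟩
  unfold INZ_F
  rw [dif_pos h]
  have hs := h.choose_spec
  set p := h.choose with hp
  have ha : a ∈ ({p.1, p.2} : Finset V) := by rw [← hs]; simp
  have hb : b ∈ ({p.1, p.2} : Finset V) := by rw [← hs]; simp
  have hp1 : p.1 ∈ ({a, b} : Finset V) := by rw [hs]; simp
  have hp2 : p.2 ∈ ({a, b} : Finset V) := by rw [hs]; simp
  simp only [Finset.mem_insert, Finset.mem_singleton] at ha hb hp1 hp2
  rcases ha with h1 | h1 <;> rcases hb with h2 | h2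
  · have h4 : p.2 = p.1 := by
      rcases hp2 with h3 | h3
      · exact h3.trans h1
      · exact h3.trans h2
    rw [h4, h1, h2]
  · rw [h1, h2]
  · rw [h1, h2, hχ]
  · have h4 : p.1 = p.2 := by
      rcases hp1 with h3 | h3
      · exact h3.trans h1
      · exact h3.trans h2
    rw [h4, h1, h2]

theorem INZ_pc {V : Type} [DecidableEq V] (χ : V → V → ZMod 2) (hχ : ∀ x y, χ y x = χ x y) (a b c : V) (hab : a ≠ b) (hac : a ≠ c) (hbc : b ≠ c) :
    ∑ e ∈ ({a, b, c} : Finset V).powersetCard 2, INZ_F χ e = χ a b + χ b c + χ a c := by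
  have hp : ({a, b, c} : Finset V).powersetCard 2 = {{a, b}, {a, c}, {b, c}} := by
    ext e
    rw [Finset.mem_powersetCard, Finset.card_eq_two]
    simp only [Finset.mem_insert, Finset.mem_singleton]
    constructor
    · rintro ⟨h1, x, y, hxy, rfl⟩
      have hx : x ∈ ({a, b, c} : Finset V) := h1 (by simp)
      have hy : y ∈ ({a, b, c} : Finset V) := h1 (by simp)
      simp only [Finset.mem_insert, Finset.mem_singleton] at hx hy
      rcases hx with rfl | rfl | rfl <;> rcases hy with rfl | rfl | rfl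
      · exact absurd rfl hxy
      · exact Or.inl rfl
      · exact Or.inr (Or.inl rfl)
      · exact Or.inl (Finset.pair_comm _ _)
      · exact absurd rfl hxy
      · exact Or.inr (Or.inr rfl)
      · exact Or.inr (Or.inl (Finset.pair_comm _ _))
      · exact Or.inr (Or.inr (Finset.pair_comm _ _))
      · exact absurd rfl hxy
    · rintro (rfl | rfl | rfl)
      · exact ⟨by intro z hz; simp only [Finset.mem_insert, Finset.mem_singleton] at hz ⊢; tauto, a, b, hab, rfl⟩
      · exact ⟨by intro z hz; simp only [Finset.mem_insert, Finset.mem_singleton] at hz ⊢; tauto, a, c, hac, rfl⟩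
      · exact ⟨by intro z hz; simp only [Finset.mem_insert, Finset.mem_singleton] at hz ⊢; tauto, b, c, hbc, rfl⟩
  have h1 : ({a, b} : Finset V) ≠ {a, c} := by
    intro h
    have : b ∈ ({a, c} : Finset V) := by rw [← h]; simp
    simp only [Finset.mem_insert, Finset.mem_singleton] at this
    rcases this with h2 | h2
    · exact hab h2.symm
    · exact hbc h2
  have h2 : ({a, b} : Finset V) ≠ {b, c} := by
    intro h
    have : a ∈ ({b, c} : Finset V) := by rw [← h]; simp
    simp only [Finset.mem_insert, Finset.mem_singleton] at this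
    rcases this with h2 | h2
    · exact hab h2
    · exact hac h2
  have h3 : ({a, c} : Finset V) ≠ {b, c} := by
    intro h
    have : a ∈ ({b, c} : Finset V) := by rw [← h]; simp
    simp only [Finset.mem_insert, Finset.mem_singleton] at this
    rcases this with h2 | h2
    · exact hab h2
    · exact hac h2
  rw [hp, Finset.sum_insert (by simp [h1, h2]), Finset.sum_insert (by simp [h3]), Finset.sum_singleton, INZ_Fpair χ hχ, INZ_Fpair χ hχ, INZ_Fpair χ hχ]
  ring

theorem INZ : INZ_stmt := by
  intro hL V _ G z ω ω' χ hω hω' hχ hz h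
  obtain ⟨hz1, hz2⟩ := hz
  have e1 : ∀ τ ∈ z, Lft ω τ + Lft ω' τ = ∑ e ∈ τ.powersetCard 2, INZ_F χ e := by
    intro τ hτ
    obtain ⟨a, b, c, hab, hac, hbc, rfl⟩ := Finset.card_eq_three.1 (hz1 τ hτ).1
    rw [hL V ω hω, hL V ω' hω', INZ_pc χ hχ a b c hab hac hbc, h a b c hτ]
  have e2 : ∀ τ ∈ z, ∑ e ∈ τ.powersetCard 2, INZ_F χ e = ∑ e ∈ eds z, if e ⊆ τ then INZ_F χ e else 0 := by
    intro τ hτ
    rw [← Finset.sum_filter]
    refine Finset.sum_congr ?_ fun _ _ => rfl
    ext e
    simp only [Finset.mem_powersetCard, Finset.mem_filter, eds, Finset.mem_biUnion]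
    constructor
    · rintro ⟨h1, h2⟩
      exact ⟨⟨τ, hτ, h1, h2⟩, h1⟩
    · rintro ⟨⟨τ', -, -, h2⟩, h1⟩
      exact ⟨h1, h2⟩
  have e3 : wt (Lft ω) z + wt (Lft ω') z = 0 := by
    unfold wt
    rw [← Finset.sum_add_distrib, Finset.sum_congr rfl e1, Finset.sum_congr rfl e2, Finset.sum_comm]
    refine Finset.sum_eq_zero fun e he => ?_
    have hcard : e.card = 2 := by
      simp only [eds, Finset.mem_biUnion, Finset.mem_powersetCard] at he
      obtain ⟨τ, -, -, h2⟩ := he
      exact h2
    rw [← Finset.sum_filter, Finset.sum_const, nsmul_eq_mul]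
    have h4 := hz2 e hcard
    have h5 : (((z.filter (fun τ => e ⊆ τ)).card : ℕ) : ZMod 2) = 0 := by
      rw [ZMod.natCast_eq_zero_iff]
      exact h4.two_dvd
    have h6 : (Finset.filter (fun τ => e ⊆ τ) z).card = (z.filter (fun τ => e ⊆ τ)).card := rfl
    rw [h5, zero_mul]
  generalize wt (Lft ω) z = x at e3 ⊢
  generalize wt (Lft ω') z = y at e3 ⊢
  revert x y
  decide

end

end Pool.Agent.helper78.FS
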